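import Pool.Agent.L7h74.HS.StmD

/-!
# Project HS, part ATT: attaching cells of one dimension to a Hausdorff space
-/

set_option autoImplicit false

namespace Pool.Agent.L7h15.HS

open Topology
open Pool.Agent.L7h74.HS
open Pool.Agent.H904R2 Pool.Agent.H904R2.Cell
open Pool.Agent.Helper922.HB.Sc (Sing sface sbd)

/-- the space obtained by attaching cells -/
def Sp (X : Type) (J : Type) (n : ℕ) : Type := X ⊕ (J × {t : stdSimplex ℝ (Fin (n + 1)) // ∀ i, t.1 i ≠ 0})

variable {X : Type} [TopologicalSpace X] {J : Type} {m : ℕ}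

/-- the inclusion -/
def incF (X J : Type) (n : ℕ) (x : X) : Sp X J n := Sum.inl x

open Classical in
/-- the characteristic maps -/
noncomputable def phi {n : ℕ} (f : J → C(Bd n, X)) (j : J) (t : stdSimplex ℝ (Fin (n + 1))) :
    Sp X J n :=
  if h : ∀ i, t.1 i ≠ 0 then Sum.inr (j, ⟨t, h⟩)
  else Sum.inl (f j ⟨t, by push Not at h; exact h⟩)

theorem phi_int {n : ℕ} (f : J → C(Bd n, X)) (j : J) (t : stdSimplex ℝ (Fin (n + 1)))
    (h : ∀ i, t.1 i ≠ 0) : phi f j t = Sum.inr (j, ⟨t, h⟩) := dif_pos h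

theorem phi_bd {n : ℕ} (f : J → C(Bd n, X)) (j : J) (t : stdSimplex ℝ (Fin (n + 1)))
    (h : ∃ i, t.1 i = 0) : phi f j t = Sum.inl (f j ⟨t, h⟩) :=
  dif_neg (by push Not; exact h)

/-- the topology -/
@[reducible] noncomputable def top {n : ℕ} (f : J → C(Bd n, X)) : TopologicalSpace (Sp X J n) where
  IsOpen U := IsOpen (incF X J n ⁻¹' U) ∧ ∀ j, IsOpen (phi f j ⁻¹' U)
  isOpen_univ := ⟨by simp, fun j => by simp⟩
  isOpen_inter U V hU hV := ⟨hU.1.inter hV.1, fun j => (hU.2 j).inter (hV.2 j)⟩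
  isOpen_sUnion S hS := by
    refine ⟨?_, fun j => ?_⟩
    · rw [Set.preimage_sUnion]
      exact isOpen_biUnion fun U hU => (hS U hU).1
    · rw [Set.preimage_sUnion]
      exact isOpen_biUnion fun U hU => (hS U hU).2 j

theorem open_iff {n : ℕ} (f : J → C(Bd n, X)) (U : Set (Sp X J n)) :
    IsOpen[top f] U ↔ IsOpen (incF X J n ⁻¹' U) ∧ ∀ j, IsOpen (phi f j ⁻¹' U) := Iff.rfl

theorem closed_iff {n : ℕ} (f : J → C(Bd n, X)) (U : Set (Sp X J n)) :
    IsClosed[top f] U ↔ IsClosed (incF X J n ⁻¹' U) ∧ ∀ j, IsClosed (phi f j ⁻¹' U) := by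
  rw [← @isOpen_compl_iff _ _ (top f), open_iff]
  simp only [Set.preimage_compl, isOpen_compl_iff]

theorem cont_iff {n : ℕ} (f : J → C(Bd n, X)) {Z : Type} [TopologicalSpace Z] (g : Sp X J n → Z)
    (h1 : Continuous fun x => g (incF X J n x)) (h2 : ∀ j, Continuous fun t => g (phi f j t)) :
    @Continuous _ _ (top f) _ g :=
  @Continuous.mk _ _ (top f) _ g fun U hU => ⟨hU.preimage h1, fun j => hU.preimage (h2 j)⟩

theorem cont_inc {n : ℕ} (f : J → C(Bd n, X)) : @Continuous _ _ _ (top f) (incF X J n) :=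
  @Continuous.mk _ _ _ (top f) _ fun _ hU => hU.1

theorem cont_phi {n : ℕ} (f : J → C(Bd n, X)) (j : J) : @Continuous _ _ _ (top f) (phi f j) :=
  @Continuous.mk _ _ _ (top f) _ fun _ hU => hU.2 j

/-- separating function of the cell `j` -/
noncomputable def sep {n : ℕ} (X J : Type) (j : J) : Sp X J n → (Fin (n + 1) → ℝ) := by
  classical
  exact fun p => match p with
    | Sum.inl _ => 0
    | Sum.inr (j', t) => if j' = j then mu t.1 • t.1.1 else 0

theorem mu_pos {n : ℕ} (t : stdSimplex ℝ (Fin (n + 1))) (h : ∀ i, t.1 i ≠ 0) : 0 < mu t := by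
  obtain ⟨i, hi⟩ := exists_mu t
  rw [hi]
  exact lt_of_le_of_ne (t.2.1 i) (Ne.symm (h i))

theorem mu_bd {n : ℕ} (t : stdSimplex ℝ (Fin (n + 1))) (h : ∃ i, t.1 i = 0) : mu t = 0 := by
  obtain ⟨i, hi⟩ := h
  exact le_antisymm (hi ▸ mu_le t i) (mu_nonneg t)

theorem sep_phi {n : ℕ} (f : J → C(Bd n, X)) (j : J) (t : stdSimplex ℝ (Fin (n + 1))) :
    sep X J j (phi f j t) = mu t • t.1 := by
  by_cases h : ∀ i, t.1 i ≠ 0
  · rw [phi_int f j t h]
    simp [sep]
  · have h' : ∃ i, t.1 i = 0 := by push Not at h; exact h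
    rw [phi_bd f j t h', mu_bd t h', zero_smul]
    rfl

theorem sep_phi_ne {n : ℕ} (f : J → C(Bd n, X)) (j j' : J) (hj : j' ≠ j)
    (t : stdSimplex ℝ (Fin (n + 1))) :
    sep X J j (phi f j' t) = 0 := by
  by_cases h : ∀ i, t.1 i ≠ 0
  · rw [phi_int f j' t h]
    simp [sep, hj]
  · have h' : ∃ i, t.1 i = 0 := by push Not at h; exact h
    rw [phi_bd f j' t h']
    rfl

theorem cont_sep {n : ℕ} (f : J → C(Bd n, X)) (j : J) :
    @Continuous _ _ (top f) _ (sep (n := n) X J j) := by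
  apply cont_iff
  · exact continuous_const
  · intro j'
    by_cases hj : j' = j
    · subst hj
      simp only [sep_phi]
      exact (continuous_mu n).smul continuous_subtype_val
    · simp only [sep_phi_ne f j j' hj]
      exact continuous_const

theorem sep_inj {n : ℕ} (s t : stdSimplex ℝ (Fin (n + 1))) (hs : ∀ i, s.1 i ≠ 0)
    (h : mu s • s.1 = mu t • t.1) : s = t := by
  have h1 : ∑ i, (mu s • s.1) i = ∑ i, (mu t • t.1) i := by rw [h]
  simp only [Pi.smul_apply, smul_eq_mul, ← Finset.mul_sum] at h1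
  have h2 : mu s = mu t := by
    have e1 := s.2.2
    have e2 := t.2.2
    rw [e1, e2, mul_one, mul_one] at h1
    exact h1
  rw [← h2] at h
  have h3 := mu_pos s hs
  apply Subtype.ext
  exact smul_right_injective _ (ne_of_gt h3) h

/-- the open extension of an open set -/
def ext' {n : ℕ} (f : J → C(Bd n, X)) (U : Set X) : Set (Sp X J n) :=
  {p | match p with
    | Sum.inl a => a ∈ U
    | Sum.inr (j, t) => ∃ h : t.1 ∈ Db n, f j ⟨RR n (⟨t.1, h⟩, 1), RR_one n ⟨t.1, h⟩⟩ ∈ U}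

theorem bd_mem_Db {n : ℕ} (t : stdSimplex ℝ (Fin (n + 1))) (h : ∃ i, t.1 i = 0) : t ∈ Db n := by
  intro e
  obtain ⟨i, hi⟩ := h
  rw [e] at hi
  exact bc_mem_Di n i hi

theorem phi_mem_ext {n : ℕ} (f : J → C(Bd n, X)) (U : Set X) (j : J)
    (t : stdSimplex ℝ (Fin (n + 1))) :
    phi f j t ∈ ext' f U ↔ ∃ h : t ∈ Db n, f j ⟨RR n (⟨t, h⟩, 1), RR_one n ⟨t, h⟩⟩ ∈ U := by
  by_cases h : ∀ i, t.1 i ≠ 0
  · rw [phi_int f j t h]
    rfl
  · have h' : ∃ i, t.1 i = 0 := by push Not at h; exact h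
    rw [phi_bd f j t h']
    have hD := bd_mem_Db t h'
    have e : (⟨RR n (⟨t, hD⟩, 1), RR_one n ⟨t, hD⟩⟩ : Bd n) = ⟨t, h'⟩ :=
      Subtype.ext (RR_bd n ⟨t, hD⟩ h' 1)
    constructor
    · intro hU
      exact ⟨hD, by rw [e]; exact hU⟩
    · rintro ⟨_, hU⟩
      rw [e] at hU
      exact hU

theorem open_ext {n : ℕ} (f : J → C(Bd n, X)) (U : Set X) (hU : IsOpen U) :
    IsOpen[top f] (ext' f U) := by
  rw [open_iff]
  refine ⟨hU, fun j => ?_⟩
  have hc : Continuous fun t : Db n => f j ⟨RR n (t, 1), RR_one n t⟩ := by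
    apply (f j).continuous.comp
    apply Continuous.subtype_mk
    exact (RR n).continuous.comp (by fun_prop)
  have h1 : phi f j ⁻¹' ext' f U =
      Subtype.val '' ((fun t : Db n => f j ⟨RR n (t, 1), RR_one n t⟩) ⁻¹' U) := by
    ext t
    rw [Set.mem_preimage, phi_mem_ext]
    constructor
    · rintro ⟨h, hU⟩
      exact ⟨⟨t, h⟩, hU, rfl⟩
    · rintro ⟨⟨t', h⟩, hU, rfl⟩
      exact ⟨h, hU⟩
  rw [h1]
  exact (isOpen_Db n).isOpenMap_subtype_val _ (hU.preimage hc)

theorem disj_ext {n : ℕ} (f : J → C(Bd n, X)) (U V : Set X) (h : Disjoint U V) :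
    Disjoint (ext' f U) (ext' f V) := by
  rw [Set.disjoint_left]
  rintro (a | ⟨j, t⟩) hU hV
  · exact Set.disjoint_left.1 h hU hV
  · obtain ⟨_, hU⟩ := hU
    obtain ⟨_, hV⟩ := hV
    exact Set.disjoint_left.1 h hU hV

theorem t2_sp [T2Space X] {n : ℕ} (f : J → C(Bd n, X)) : @T2Space _ (top f) := by
  refine @T2Space.mk _ (top f) ?_
  intro x y hxy
  have key : ∀ j, sep (n := n) X J j x ≠ sep X J j y →
      ∃ u v, IsOpen[top f] u ∧ IsOpen[top f] v ∧ x ∈ u ∧ y ∈ v ∧ Disjoint u v := by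
    intro j hj
    obtain ⟨u, v, hu, hv, hx, hy, huv⟩ := t2_separation hj
    exact ⟨_, _, @Continuous.isOpen_preimage _ _ (top f) _ _ (cont_sep f j) u hu,
      @Continuous.isOpen_preimage _ _ (top f) _ _ (cont_sep f j) v hv, hx, hy,
      huv.preimage _⟩
  have hne : ∀ (j : J) (t : {t : stdSimplex ℝ (Fin (n + 1)) // ∀ i, t.1 i ≠ 0}),
      sep (n := n) X J j (Sum.inr (j, t)) ≠ 0 := by
    intro j t h
    have h1 : sep (n := n) X J j (Sum.inr (j, t)) = mu t.1 • t.1.1 := by simp [sep]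
    rw [h1] at h
    have h2 := congrFun h 0
    simp only [Pi.smul_apply, smul_eq_mul, Pi.zero_apply, mul_eq_zero] at h2
    rcases h2 with h2 | h2
    · exact (mu_pos t.1 t.2).ne' h2
    · exact t.2 0 h2
  rcases x with a | ⟨j, s⟩
  · rcases y with b | ⟨j', t⟩
    · have hab : a ≠ b := fun h => hxy (by rw [h])
      obtain ⟨u, v, hu, hv, ha, hb, huv⟩ := t2_separation hab
      exact ⟨ext' f u, ext' f v, open_ext f u hu, open_ext f v hv, ha, hb, disj_ext f u v huv⟩
    · exact key j' fun h => hne j' t h.symm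
  · rcases y with b | ⟨j', t⟩
    · exact key j fun h => hne j s h
    · by_cases hj : j' = j
      · subst hj
        apply key j'
        intro h
        simp only [sep, if_true] at h
        apply hxy
        rw [Subtype.ext (sep_inj s.1 t.1 s.2 h)]
      · apply key j
        intro h
        have h1 : sep (n := n) X J j (Sum.inr (j', t)) = 0 := by simp [sep, hj]
        rw [h1] at h
        exact hne j s h

theorem isClosed_bd (n : ℕ) : IsClosed {t : stdSimplex ℝ (Fin (n + 1)) | ∃ i, t.1 i = 0} := by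
  have : {t : stdSimplex ℝ (Fin (n + 1)) | ∃ i, t.1 i = 0} = (Di n)ᶜ := by
    ext t
    simp [Di]
  rw [this]
  exact (isOpen_Di n).isClosed_compl

theorem inj_inc (X J : Type) (n : ℕ) : Function.Injective (incF X J n) :=
  fun _ _ h => Sum.inl_injective h

theorem emb_inc {n : ℕ} (f : J → C(Bd n, X)) :
    @Topology.IsClosedEmbedding _ _ _ (top f) (incF X J n) := by
  let _ := top f
  refine Topology.IsClosedEmbedding.of_continuous_injective_isClosedMap
    (cont_inc f) (inj_inc X J n) ?_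
  intro C hC
  rw [closed_iff]
  constructor
  · have : incF X J n ⁻¹' (incF X J n '' C) = C :=
      Set.preimage_image_eq _ (inj_inc X J n)
    rw [this]
    exact hC
  · intro j
    have : phi f j ⁻¹' (incF X J n '' C) = Subtype.val '' ((f j) ⁻¹' C) := by
      ext t
      constructor
      · rintro ⟨c, hc, h⟩
        by_cases h0 : ∀ i, t.1 i ≠ 0
        · rw [phi_int f j t h0] at h
          exact absurd h (by simp [incF])
        · have h' : ∃ i, t.1 i = 0 := by push Not at h0; exact h0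
          rw [phi_bd f j t h'] at h
          refine ⟨⟨t, h'⟩, ?_, rfl⟩
          have := Sum.inl_injective h
          rw [Set.mem_preimage, ← this]
          exact hc
      · rintro ⟨⟨t', h'⟩, hc, rfl⟩
        refine ⟨_, hc, ?_⟩
        rw [phi_bd f j t' h']
        rfl
    rw [this]
    exact (isClosed_bd n).isClosedMap_subtype_val _ (hC.preimage (f j).continuous)

/-- part ATT of project HS -/
theorem s_ATT : S_ATT := by
  intro X _ _ J m f
  refine ⟨Sp X J (m + 1), top f, t2_sp f, @ContinuousMap.mk _ _ _ (top f) _ (cont_inc f),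
    fun j => @ContinuousMap.mk _ _ _ (top f) _ (cont_phi f j), ?_⟩
  let _ := top f
  refine ⟨emb_inc f, ?_, ?_, ?_, ?_, ?_⟩
  · intro j t
    exact phi_bd f j t.1 t.2
  · rintro j t ht ⟨x, hx⟩
    change incF X J (m + 1) x = phi f j t at hx
    rw [phi_int f j t ht] at hx
    exact absurd hx (by simp [incF])
  · intro j j' t t' ht ht' h
    change phi f j t = phi f j' t' at h
    rw [phi_int f j t ht, phi_int f j' t' ht'] at h
    have := Sum.inr_injective h
    rw [Prod.mk.injEq] at this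
    exact ⟨this.1, congrArg Subtype.val this.2⟩
  · rintro (a | ⟨j, t⟩)
    · exact Or.inl ⟨a, rfl⟩
    · exact Or.inr ⟨j, t.1, phi_int f j t.1 t.2⟩
  · intro C h1 h2
    exact (closed_iff f C).2 ⟨h1, h2⟩

end Pool.Agent.L7h15.HS
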